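import Mathlib

set_option autoImplicit false

namespace Pool.Agent.Results.MP_3f481b_al.Kernel

universe u

/-- `KO G`: the intersection of the kernels of all continuous homomorphisms to `GL_n(ℂ)`, `n ≥ 1`. -/
def KO (G : Type u) [Group G] [TopologicalSpace G] : Subgroup G :=
  ⨅ (n : ℕ) (_ : 1 ≤ n) (ρ : G →* GL (Fin n) ℂ) (_ : Continuous ρ), ρ.ker

section constr

variable (A : Type u) [CommGroup A]

def V : Type u := ((A × ℕ) →₀ ℤ) × ((A × ℕ) →₀ ℤ)

noncomputable instance : AddCommGroup (V A) :=
  inferInstanceAs (AddCommGroup (((A × ℕ) →₀ ℤ) × ((A × ℕ) →₀ ℤ)))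
instance : TopologicalSpace (V A) := ⊥
instance : DiscreteTopology (V A) := ⟨rfl⟩

variable {A}

noncomputable def c (v w : V A) : A := v.1.prod fun i k => (i.1 ^ w.2 i) ^ k

lemma c_add_left (x y z : V A) : c (x + y) z = c x z * c y z :=
  Finsupp.prod_add_index' (fun _ => zpow_zero _) (fun _ _ _ => zpow_add _ _ _)

lemma c_add_right (x y z : V A) : c x (y + z) = c x y * c x z := by
  unfold c
  rw [← Finsupp.prod_mul]
  refine Finsupp.prod_congr fun i _ => ?_
  have : (y + z).2 i = y.2 i + z.2 i := rfl
  rw [this, zpow_add, mul_zpow]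

lemma c_zero_left (x : V A) : c 0 x = 1 := Finsupp.prod_zero_index

lemma c_zero_right (x : V A) : c x 0 = 1 := by
  have := c_add_right x 0 0
  rw [add_zero] at this
  exact left_eq_mul.1 this

def G (A : Type u) [CommGroup A] : Type u := A × V A

noncomputable instance : Mul (G A) := ⟨fun p q => (p.1 * q.1 * c p.2 q.2, p.2 + q.2)⟩
noncomputable instance : One (G A) := ⟨(1, 0)⟩
noncomputable instance : Inv (G A) := ⟨fun p => ((p.1 * c (-p.2) p.2)⁻¹, -p.2)⟩

lemma mul_1 (p q : G A) : (p * q).1 = p.1 * q.1 * c p.2 q.2 := rfl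
lemma mul_2 (p q : G A) : (p * q).2 = p.2 + q.2 := rfl
lemma one_1 : (1 : G A).1 = 1 := rfl
lemma one_2 : (1 : G A).2 = 0 := rfl
lemma inv_1 (p : G A) : (p⁻¹).1 = (p.1 * c (-p.2) p.2)⁻¹ := rfl
lemma inv_2 (p : G A) : (p⁻¹).2 = -p.2 := rfl

noncomputable instance : Group (G A) := Group.ofLeftAxioms
  (fun a b d => Prod.ext (by
      simp only [mul_1, mul_2, c_add_left, c_add_right]
      ac_rfl)
    (by simp only [mul_2, add_assoc]))
  (fun a => Prod.ext (by simp [mul_1, one_1, one_2, c_zero_left]) (by simp [mul_2, one_2]))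
  (fun a => Prod.ext (by
      rw [mul_1, inv_1, inv_2, one_1, mul_assoc, inv_mul_cancel])
    (by rw [mul_2, inv_2, one_2, neg_add_cancel]))

noncomputable def xx (a : A) (n : ℕ) : G A := (1, (Finsupp.single (a, n) 1, 0))
noncomputable def yy (a : A) (n : ℕ) : G A := (1, (0, Finsupp.single (a, n) 1))
noncomputable def zz (a : A) : G A := (a, 0)

lemma xy_same (a : A) (n : ℕ) : xx a n * yy a n = zz a * (yy a n * xx a n) := by
  refine Prod.ext ?_ ?_
  · have : (zz a).2 = 0 := rfl
    rw [mul_1 (zz a), this, c_zero_left]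
    simp [mul_1, xx, yy, zz, c]
  · simp only [mul_2, xx, yy, zz]
    rw [zero_add, add_comm]

lemma xy_ne (a : A) {n m : ℕ} (h : n ≠ m) : xx a n * yy a m = yy a m * xx a n := by
  refine Prod.ext ?_ ?_
  · simp [mul_1, xx, yy, c, h]
  · simp only [mul_2]
    rw [add_comm]

lemma zz_comm (a : A) (g : G A) : zz a * g = g * zz a := by
  refine Prod.ext ?_ ?_
  · simp [mul_1, zz, c_zero_left, c_zero_right, mul_comm]
  · simp only [mul_2]
    rw [add_comm]

lemma rep_zz {n : ℕ} (ρ : G A →* GL (Fin n) ℂ) (a : A) : ρ (zz a) = 1 := by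
  classical
  by_contra hne
  have li : LinearIndependent ℂ (fun k : ℕ => (ρ (xx a k) : Matrix (Fin n) (Fin n) ℂ)) := by
    rw [linearIndependent_iff']
    intro s g hg j hj
    by_contra hgj
    apply hne
    set Y : Matrix (Fin n) (Fin n) ℂ := (ρ (yy a j) : Matrix (Fin n) (Fin n) ℂ) with hY
    have h1 : ∑ k ∈ s, g k • ((ρ (xx a k) : Matrix (Fin n) (Fin n) ℂ) * Y - Y * ρ (xx a k)) = 0 := by
      have e : ∀ k, g k • ((ρ (xx a k) : Matrix (Fin n) (Fin n) ℂ) * Y - Y * ρ (xx a k)) =
          (g k • (ρ (xx a k) : Matrix (Fin n) (Fin n) ℂ)) * Y - Y * (g k • ρ (xx a k)) := fun k => by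
        rw [smul_sub, smul_mul_assoc, mul_smul_comm]
      simp only [e, Finset.sum_sub_distrib, ← Finset.sum_mul, ← Finset.mul_sum, hg]
      simp
    rw [Finset.sum_eq_single j (fun k _ hk => by
      rw [hY, ← Units.val_mul, ← Units.val_mul, ← map_mul, ← map_mul, xy_ne a hk, sub_self,
        smul_zero]) (fun h => absurd hj h)] at h1
    have h2 := sub_eq_zero.1 ((smul_eq_zero.1 h1).resolve_left hgj)
    rw [hY, ← Units.val_mul, ← Units.val_mul, ← map_mul, ← map_mul, xy_same, map_mul] at h2
    exact mul_eq_right.1 (Units.ext h2)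
  exact Module.Finite.not_linearIndependent_of_infinite _ li

variable [TopologicalSpace A]

instance : TopologicalSpace (G A) := inferInstanceAs (TopologicalSpace (A × V A))

lemma cont1 : Continuous fun p : G A => p.1 := continuous_fst (X := A) (Y := V A)
lemma cont2 : Continuous fun p : G A => p.2 := continuous_snd (X := A) (Y := V A)

instance [IsTopologicalGroup A] : IsTopologicalGroup (G A) where
  continuous_mul := by
    apply Continuous.prodMk
    · exact ((cont1.comp continuous_fst).mul (cont1.comp continuous_snd)).mul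
        ((continuous_of_discreteTopology (f := fun p : V A × V A => c p.1 p.2)).comp
          ((cont2.comp continuous_fst).prodMk (cont2.comp continuous_snd)))
    · exact (continuous_of_discreteTopology (f := fun p : V A × V A => p.1 + p.2)).comp
        ((cont2.comp continuous_fst).prodMk (cont2.comp continuous_snd))
  continuous_inv := by
    apply Continuous.prodMk
    · exact (cont1.mul ((continuous_of_discreteTopology (f := fun p : V A => c (-p) p)).comp cont2)).inv
    · exact (continuous_of_discreteTopology (f := fun p : V A => -p)).comp cont2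

noncomputable def two : GL (Fin 1) ℂ := Matrix.GeneralLinearGroup.scalar (Fin 1) (Units.mk0 2 two_ne_zero)

lemma two_pow {k : ℤ} (h : two ^ k = 1) : k = 0 := by
  have h0 := congrArg Matrix.GeneralLinearGroup.det h
  rw [map_zpow, map_one] at h0
  have h1 := congrArg (fun g : ℂˣ => ‖(g : ℂ)‖) h0
  simp [two, Matrix.GeneralLinearGroup.scalar] at h1
  exact (zpow_eq_one_iff_right₀ (by norm_num) (by norm_num)).1 h1

lemma char_zero {g : G A} (hg : g ∈ KO (G A)) (f : V A →+ ℤ) : f g.2 = 0 := by
  let ρ : G A →* GL (Fin 1) ℂ :=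
    { toFun := fun p => two ^ f p.2
      map_one' := by rw [one_2, map_zero, zpow_zero]
      map_mul' := fun p q => by rw [mul_2, map_add, zpow_add] }
  have hρ : Continuous ρ := (continuous_of_discreteTopology (f := fun v : V A => two ^ f v)).comp cont2
  simp only [KO, Subgroup.mem_iInf] at hg
  exact two_pow (hg 1 le_rfl ρ hρ)

lemma mem_KO (g : G A) : g ∈ KO (G A) ↔ g.2 = 0 := by
  constructor
  · intro hg
    refine Prod.ext (Finsupp.ext fun i => ?_) (Finsupp.ext fun i => ?_)
    · exact char_zero hg ((Finsupp.applyAddHom i).comp (AddMonoidHom.fst _ _))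
    · exact char_zero hg ((Finsupp.applyAddHom i).comp (AddMonoidHom.snd _ _))
  · intro hg
    simp only [KO, Subgroup.mem_iInf]
    intro n _ ρ _
    have : g = zz g.1 := Prod.ext rfl hg
    rw [this]; exact rep_zz ρ _

noncomputable def iso : KO (G A) ≃ₜ* A where
  toFun g := g.1.1
  invFun a := ⟨zz a, (mem_KO _).2 rfl⟩
  left_inv g := Subtype.ext (Prod.ext rfl ((mem_KO _).1 g.2).symm)
  right_inv _ := rfl
  map_mul' g h := by
    show (g.1 * h.1).1 = _
    rw [mul_1, (mem_KO _).1 g.2, c_zero_left, mul_one]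
  continuous_toFun := cont1.comp continuous_subtype_val
  continuous_invFun := Continuous.subtype_mk (continuous_id.prodMk continuous_const) _

end constr

/-- Every locally compact abelian group, in particular every compact abelian group, is `KO G` for a
locally compact group `G`. -/
theorem result (A : Type u) [CommGroup A] [TopologicalSpace A] [IsTopologicalGroup A]
    [LocallyCompactSpace A] [T2Space A] :
    ∃ (G : Type u) (_ : Group G) (_ : TopologicalSpace G), IsTopologicalGroup G ∧
      LocallyCompactSpace G ∧ T2Space G ∧ Nonempty (KO G ≃ₜ* A) :=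
  ⟨G A, inferInstance, inferInstance, inferInstance,
    inferInstanceAs (LocallyCompactSpace (A × V A)), inferInstanceAs (T2Space (A × V A)), ⟨iso⟩⟩

end Pool.Agent.Results.MP_3f481b_al.Kernel
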